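import Mathlib

/-!
# Project Y734/I, job LIN5: binary quadratic forms at pairwise independent points
-/

set_option autoImplicit false

namespace Pool.Agent.Y734.I.LIN5

/-- the determinant of two binary forms -/
def dt (a b : Fin 2 → ℚ) : ℚ := a 0 * b 1 - a 1 * b 0

/-- the value of a symmetric bilinear form at a binary linear form -/
def vl (g : Fin 2 → ℚ) (A B C : ℂ) : ℂ := (g 0 : ℂ) * g 0 * A + (g 0 : ℂ) * g 1 * B +
  (g 1 : ℂ) * g 1 * C

lemma dt_swap (a b : Fin 2 → ℚ) : dt a b = -dt b a := by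
  unfold dt
  ring

lemma rel4 (a b c d : Fin 2 → ℚ) (A B C : ℂ) :
    ((dt b c * dt b d * dt c d : ℚ) : ℂ) * vl a A B C +
      ((-(dt a c * dt a d * dt c d) : ℚ) : ℂ) * vl b A B C +
      ((dt a b * dt a d * dt b d : ℚ) : ℂ) * vl c A B C +
      ((-(dt a b * dt a c * dt b c) : ℚ) : ℂ) * vl d A B C = 0 := by
  unfold vl dt
  push_cast
  ring

lemma zero3 (a b c : Fin 2 → ℚ) (hab : dt a b ≠ 0) (hac : dt a c ≠ 0) (hbc : dt b c ≠ 0)
    (A B C : ℂ) (h1 : vl a A B C = 0) (h2 : vl b A B C = 0) (h3 : vl c A B C = 0) :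
    A = 0 ∧ B = 0 ∧ C = 0 := by
  have hD : ((dt a b * dt a c * dt b c : ℚ) : ℂ) ≠ 0 :=
    Rat.cast_ne_zero.2 (mul_ne_zero (mul_ne_zero hab hac) hbc)
  have e1 : ((dt a b * dt a c * dt b c : ℚ) : ℂ) * A = 0 := by
    have : ((dt a b * dt a c * dt b c : ℚ) : ℂ) * A =
        (b 1 : ℂ) * c 1 * (dt b c : ℚ) * vl a A B C - (a 1 : ℂ) * c 1 * (dt a c : ℚ) * vl b A B C +
          (a 1 : ℂ) * b 1 * (dt a b : ℚ) * vl c A B C := by
      unfold vl dt
      push_cast
      ring
    rw [this, h1, h2, h3]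
    ring
  have e2 : ((dt a b * dt a c * dt b c : ℚ) : ℂ) * B = 0 := by
    have : ((dt a b * dt a c * dt b c : ℚ) : ℂ) * B =
        -((b 0 : ℂ) * c 1 + b 1 * c 0) * (dt b c : ℚ) * vl a A B C +
          ((a 0 : ℂ) * c 1 + a 1 * c 0) * (dt a c : ℚ) * vl b A B C -
          ((a 0 : ℂ) * b 1 + a 1 * b 0) * (dt a b : ℚ) * vl c A B C := by
      unfold vl dt
      push_cast
      ring
    rw [this, h1, h2, h3]
    ring
  have e3 : ((dt a b * dt a c * dt b c : ℚ) : ℂ) * C = 0 := by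
    have : ((dt a b * dt a c * dt b c : ℚ) : ℂ) * C =
        (b 0 : ℂ) * c 0 * (dt b c : ℚ) * vl a A B C - (a 0 : ℂ) * c 0 * (dt a c : ℚ) * vl b A B C +
          (a 0 : ℂ) * b 0 * (dt a b : ℚ) * vl c A B C := by
      unfold vl dt
      push_cast
      ring
    rw [this, h1, h2, h3]
    ring
  exact ⟨(mul_eq_zero.1 e1).resolve_left hD, (mul_eq_zero.1 e2).resolve_left hD,
    (mul_eq_zero.1 e3).resolve_left hD⟩

/-- proportional binary forms have the same zero -/
lemma same_zero {u v : Fin 2 → ℚ} (hu : u ≠ 0) (hv : v ≠ 0) (huv : dt u v = 0) {P0 P1 Q0 Q1 : ℂ}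
    (hP : (u 0 : ℂ) * P0 + (u 1 : ℂ) * P1 = 0) (hQ : (v 0 : ℂ) * Q0 + (v 1 : ℂ) * Q1 = 0)
    (hQ0 : Q0 ≠ 0 ∨ Q1 ≠ 0) : ∃ c : ℂ, P0 = c * Q0 ∧ P1 = c * Q1 := by
  have hd : (u 0 : ℂ) * v 1 = (u 1 : ℂ) * v 0 := by
    have : u 0 * v 1 = u 1 * v 0 := sub_eq_zero.1 huv
    exact_mod_cast this
  have hu' : (u 0 : ℂ) ≠ 0 ∨ (u 1 : ℂ) ≠ 0 := by
    by_contra hcon
    push Not at hcon
    apply hu
    funext i
    fin_cases i
    · exact_mod_cast hcon.1
    · exact_mod_cast hcon.2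
  have hv' : (v 0 : ℂ) ≠ 0 ∨ (v 1 : ℂ) ≠ 0 := by
    by_contra hcon
    push Not at hcon
    apply hv
    funext i
    fin_cases i
    · exact_mod_cast hcon.1
    · exact_mod_cast hcon.2
  -- the cross product of `P` and `Q`
  have hcr : P0 * Q1 = P1 * Q0 := by
    -- `u` is a multiple of `v`
    obtain ⟨m, hm0, hm1, hm⟩ : ∃ m : ℂ, (u 0 : ℂ) = m * v 0 ∧ (u 1 : ℂ) = m * v 1 ∧ m ≠ 0 := by
      rcases hv' with h | h
      · refine ⟨(u 0 : ℂ) / v 0, by field_simp, by field_simp; linear_combination -hd, ?_⟩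
        intro h0
        have hu0 : (u 0 : ℂ) = 0 := by
          rcases div_eq_zero_iff.1 h0 with h1 | h1
          · exact h1
          · exact absurd h1 h
        rw [hu0, zero_mul] at hd
        rcases hu' with h1 | h1
        · exact h1 hu0
        · exact mul_ne_zero h1 h hd.symm
      · refine ⟨(u 1 : ℂ) / v 1, by field_simp; linear_combination hd, by field_simp, ?_⟩
        intro h0
        have hu0 : (u 1 : ℂ) = 0 := by
          rcases div_eq_zero_iff.1 h0 with h1 | h1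
          · exact h1
          · exact absurd h1 h
        rw [hu0, zero_mul] at hd
        rcases hu' with h1 | h1
        · exact mul_ne_zero h1 h hd
        · exact h1 hu0
    have hP' : (v 0 : ℂ) * P0 + (v 1 : ℂ) * P1 = 0 := by
      rw [hm0, hm1] at hP
      have : m * ((v 0 : ℂ) * P0 + (v 1 : ℂ) * P1) = 0 := by linear_combination hP
      exact (mul_eq_zero.1 this).resolve_left hm
    rcases hv' with h | h
    · have : (v 0 : ℂ) * (P0 * Q1 - P1 * Q0) = 0 := by
        linear_combination Q1 * hP' - P1 * hQ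
      exact sub_eq_zero.1 ((mul_eq_zero.1 this).resolve_left h)
    · have : (v 1 : ℂ) * (P0 * Q1 - P1 * Q0) = 0 := by
        linear_combination P0 * hQ - Q0 * hP'
      exact sub_eq_zero.1 ((mul_eq_zero.1 this).resolve_left h)
  rcases hQ0 with h | h
  · refine ⟨P0 / Q0, by field_simp, ?_⟩
    field_simp
    linear_combination -hcr
  · refine ⟨P1 / Q1, ?_, by field_simp⟩
    field_simp
    linear_combination hcr

lemma sum3 {M : Type} [AddCommMonoid M] (f : Fin 3 → M) (j : Fin 3) :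
    ∑ i, f i = f j + f (j + 1) + f (j + 2) := by
  rw [Fin.sum_univ_three]
  have h1 : (1 : Fin 3) + 2 = 0 := rfl
  have h2 : (2 : Fin 3) + 1 = 0 := rfl
  have h3 : (2 : Fin 3) + 2 = 1 := rfl
  have h4 : (1 : Fin 3) + 1 = 2 := rfl
  fin_cases j
  · simp
  · simp only [Fin.mk_one, h1, h4]
    abel
  · simp only [Fin.reduceFinMk, h2, h3]
    abel

lemma cases3 (j k : Fin 3) : k = j ∨ k = j + 1 ∨ k = j + 2 := by
  revert j k
  decide

/-- among five indices all are related -/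
lemma all_rel5 (R : Fin 5 → Fin 5 → Prop) (hsymm : ∀ i j, R i j → R j i)
    (htrans : ∀ i j k, R i j → R j k → R i k)
    (h4 : ∀ f : Fin 4 → Fin 5, Function.Injective f → ∀ i, ∃ j, j ≠ i ∧ R (f i) (f j))
    (i j : Fin 5) (hij : i ≠ j) : R i j := by
  classical
  have hex : ∀ s : Finset (Fin 5), s.card ≤ 4 → ∃ k, k ∉ s := by
    intro s hs
    by_contra hcon
    push Not at hcon
    have h1 : (Finset.univ : Finset (Fin 5)) ⊆ s := fun x _ => hcon x
    have h2 := Finset.card_le_card h1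
    simp at h2
    omega
  obtain ⟨k, hk⟩ := hex {i, j} (Finset.card_le_two.trans (by norm_num))
  obtain ⟨l, hl⟩ := hex {i, j, k} (Finset.card_le_three.trans (by norm_num))
  obtain ⟨m, hm⟩ := hex {i, j, k, l} (Finset.card_le_four.trans (by norm_num))
  simp only [Finset.mem_insert, Finset.mem_singleton, not_or] at hk hl hm
  have key : ∀ a b c d : Fin 5, a ≠ b → a ≠ c → a ≠ d → b ≠ c → b ≠ d → c ≠ d →
      R a b ∨ R a c ∨ R a d := by
    intro a b c d h1 h2 h3 h5 h6 h7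
    obtain ⟨e, he, hR⟩ := h4 ![a, b, c, d] (by
      intro x y hxy
      have h1' := h1.symm
      have h2' := h2.symm
      have h3' := h3.symm
      have h5' := h5.symm
      have h6' := h6.symm
      have h7' := h7.symm
      fin_cases x <;> fin_cases y <;> simp at hxy ⊢ <;> contradiction) 0
    fin_cases e
    · exact absurd rfl he
    · exact Or.inl hR
    · exact Or.inr (Or.inl hR)
    · exact Or.inr (Or.inr hR)
  by_contra hR
  have hR' : ¬ R j i := fun h => hR (hsymm _ _ h)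
  have n : ∀ x, R i x → ¬ R j x := fun x h h' => hR (htrans i x j h (hsymm _ _ h'))
  have a1 := (key i j k l hij (Ne.symm hk.1) (Ne.symm hl.1) (Ne.symm hk.2) (Ne.symm hl.2.1)
    (Ne.symm hl.2.2)).resolve_left hR
  have a2 := (key j i k l hij.symm (Ne.symm hk.2) (Ne.symm hl.2.1) (Ne.symm hk.1) (Ne.symm hl.1)
    (Ne.symm hl.2.2)).resolve_left hR'
  have a3 := (key i j k m hij (Ne.symm hk.1) (Ne.symm hm.1) (Ne.symm hk.2) (Ne.symm hm.2.1)
    (Ne.symm hm.2.2.1)).resolve_left hR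
  have a4 := (key j i k m hij.symm (Ne.symm hk.2) (Ne.symm hm.2.1) (Ne.symm hk.1) (Ne.symm hm.1)
    (Ne.symm hm.2.2.1)).resolve_left hR'
  have a5 := (key i j l m hij (Ne.symm hl.1) (Ne.symm hm.1) (Ne.symm hl.2.1) (Ne.symm hm.2.1)
    (Ne.symm hm.2.2.2)).resolve_left hR
  have a6 := (key j i l m hij.symm (Ne.symm hl.2.1) (Ne.symm hm.2.1) (Ne.symm hl.1) (Ne.symm hm.1)
    (Ne.symm hm.2.2.2)).resolve_left hR'
  by_cases h : R i k
  · have h1 := a2.resolve_left (n k h)
    have h2 := a4.resolve_left (n k h)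
    rcases a5 with h3 | h3
    · exact n l h3 h1
    · exact n m h3 h2
  · have h1 := a1.resolve_left h
    have h2 := a3.resolve_left h
    rcases a6 with h3 | h3
    · exact n l h1 h3
    · exact n m h2 h3

end Pool.Agent.Y734.I.LIN5
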