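import Mathlib
import Pool.Agent.Y734.I.StmsG
import Pool.Agent.Y734.I.LIN5.Alg

/-!
# Project Y734/I, job LIN5: quadratic integral points on a line with at least five points on `D`
-/

set_option autoImplicit false

namespace Pool.Agent.Y734.I.LIN5

open MvPolynomial NumberField Filter Pool.Agent.Y734.I

/-- the restriction of a form to the line `l = 0`, if `l j ≠ 0` -/
def rs (l : Fin 3 → ℚ) (j : Fin 3) (h : Fin 3 → ℚ) : Fin 2 → ℚ :=
  ![h (j + 1) - h j * l (j + 1) / l j, h (j + 2) - h j * l (j + 2) / l j]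

lemma ev_sum (l : Fin 3 → ℚ) (x : Fin 3 → ℂ) (j : Fin 3) :
    ev (N := 2) l x = (l j : ℂ) * x j + (l (j + 1) : ℂ) * x (j + 1) +
      (l (j + 2) : ℂ) * x (j + 2) := by
  unfold ev
  rw [sum3 _ j]
  simp only [eq_ratCast]

lemma rs_ev {l : Fin 3 → ℚ} {j : Fin 3} (hj : l j ≠ 0) (h : Fin 3 → ℚ) {x : Fin 3 → ℂ}
    (hx : ev (N := 2) l x = 0) :
    ev (N := 2) h x = (rs l j h 0 : ℂ) * x (j + 1) + (rs l j h 1 : ℂ) * x (j + 2) := by
  rw [ev_sum _ _ j] at hx ⊢
  have hj' : (l j : ℂ) ≠ 0 := Rat.cast_ne_zero.2 hj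
  simp only [rs, Matrix.cons_val_zero, Matrix.cons_val_one]
  push_cast
  field_simp
  linear_combination (h j : ℂ) * hx

lemma coord_ne {l : Fin 3 → ℚ} {j : Fin 3} (hj : l j ≠ 0) {x : Fin 3 → ℂ}
    (hx : ev (N := 2) l x = 0) (hx0 : x ≠ 0) : x (j + 1) ≠ 0 ∨ x (j + 2) ≠ 0 := by
  by_contra hcon
  push Not at hcon
  apply hx0
  rw [ev_sum _ _ j, hcon.1, hcon.2] at hx
  have h1 : x j = 0 := by
    have : (l j : ℂ) * x j = 0 := by linear_combination hx
    exact (mul_eq_zero.1 this).resolve_left (Rat.cast_ne_zero.2 hj)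
  funext k
  rcases cases3 j k with rfl | rfl | rfl
  · exact h1
  · exact hcon.1
  · exact hcon.2

lemma prop_of_coord {l : Fin 3 → ℚ} {j : Fin 3} (hj : l j ≠ 0) {x y : Fin 3 → ℂ}
    (hx : ev (N := 2) l x = 0) (hy : ev (N := 2) l y = 0) {c : ℂ}
    (h1 : x (j + 1) = c * y (j + 1)) (h2 : x (j + 2) = c * y (j + 2)) : x = c • y := by
  have hj' : (l j : ℂ) ≠ 0 := Rat.cast_ne_zero.2 hj
  rw [ev_sum _ _ j] at hx hy
  have h0 : x j = c * y j := by
    have : (l j : ℂ) * (x j - c * y j) = 0 := by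
      rw [h1, h2] at hx
      linear_combination hx - c * hy
    exact sub_eq_zero.1 ((mul_eq_zero.1 this).resolve_left hj')
  funext k
  rw [Pi.smul_apply, smul_eq_mul]
  rcases cases3 j k with rfl | rfl | rfl
  · exact h0
  · exact h1
  · exact h2

/-- the first coordinate of the symmetric product -/
def sA (j : Fin 3) (x y : Fin 3 → ℂ) : ℂ := x (j + 1) * y (j + 1)

/-- the second coordinate of the symmetric product -/
def sB (j : Fin 3) (x y : Fin 3 → ℂ) : ℂ := x (j + 1) * y (j + 2) + x (j + 2) * y (j + 1)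

/-- the third coordinate of the symmetric product -/
def sC (j : Fin 3) (x y : Fin 3 → ℂ) : ℂ := x (j + 2) * y (j + 2)

lemma pr_vl {l : Fin 3 → ℚ} {j : Fin 3} (hj : l j ≠ 0) (h : Fin 3 → ℚ) {x y : Fin 3 → ℂ}
    (hx : ev (N := 2) l x = 0) (hy : ev (N := 2) l y = 0) :
    ev (N := 2) h x * ev (N := 2) h y = vl (rs l j h) (sA j x y) (sB j x y) (sC j x y) := by
  rw [rs_ev hj h hx, rs_ev hj h hy]
  unfold vl sA sB sC
  ring

lemma vl_sub (g : Fin 2 → ℚ) (c A B C A' B' C' : ℂ) :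
    vl g (A - c * A') (B - c * B') (C - c * C') = vl g A B C - c * vl g A' B' C' := by
  unfold vl
  ring

/-- the symmetric products are proportional if their coordinates are -/
lemma sym_all {l : Fin 3 → ℚ} {j : Fin 3} (hj : l j ≠ 0) {x y u v : Fin 3 → ℂ}
    (hx : ev (N := 2) l x = 0) (hy : ev (N := 2) l y = 0) (hu : ev (N := 2) l u = 0)
    (hv : ev (N := 2) l v = 0) {c : ℂ} (hA : sA j x y = c * sA j u v)
    (hB : sB j x y = c * sB j u v) (hC : sC j x y = c * sC j u v) (m n : Fin 3) :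
    x m * y n + y m * x n = c * (u m * v n + v m * u n) := by
  have hj' : (l j : ℂ) ≠ 0 := Rat.cast_ne_zero.2 hj
  unfold sA at hA
  unfold sB at hB
  unfold sC at hC
  rw [ev_sum _ _ j] at hx hy hu hv
  have hx' : x j = -((l (j + 1) : ℂ) * x (j + 1) + (l (j + 2) : ℂ) * x (j + 2)) / l j := by
    field_simp
    linear_combination hx
  have hy' : y j = -((l (j + 1) : ℂ) * y (j + 1) + (l (j + 2) : ℂ) * y (j + 2)) / l j := by
    field_simp
    linear_combination hy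
  have hu' : u j = -((l (j + 1) : ℂ) * u (j + 1) + (l (j + 2) : ℂ) * u (j + 2)) / l j := by
    field_simp
    linear_combination hu
  have hv' : v j = -((l (j + 1) : ℂ) * v (j + 1) + (l (j + 2) : ℂ) * v (j + 2)) / l j := by
    field_simp
    linear_combination hv
  have k1 : ∀ (n : Fin 3), x (j + 1) * y n + y (j + 1) * x n =
      c * (u (j + 1) * v n + v (j + 1) * u n) := by
    intro n
    rcases cases3 j n with rfl | rfl | rfl
    · rw [hx', hy', hu', hv']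
      field_simp
      linear_combination (-2 * (l (n + 1) : ℂ)) * hA - (l (n + 2) : ℂ) * hB
    · linear_combination 2 * hA
    · linear_combination hB
  have k2 : ∀ (n : Fin 3), x (j + 2) * y n + y (j + 2) * x n =
      c * (u (j + 2) * v n + v (j + 2) * u n) := by
    intro n
    rcases cases3 j n with rfl | rfl | rfl
    · rw [hx', hy', hu', hv']
      field_simp
      linear_combination (-2 * (l (n + 2) : ℂ)) * hC - (l (n + 1) : ℂ) * hB
    · linear_combination hB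
    · linear_combination 2 * hC
  rcases cases3 j m with rfl | rfl | rfl
  · have e1 := k1 n
    have e2 := k2 n
    rw [hx', hy', hu', hv']
    field_simp
    linear_combination (-(l (m + 1) : ℂ)) * e1 - (l (m + 2) : ℂ) * e2
  · exact k1 n
  · exact k2 n

/-- the norms are proportional -/
def Rl5 (U : Ultrafilter ℕ) (μ : ℕ → Fin 5 → ℚ) (i j : Fin 5) : Prop :=
  ∃ a : ℚ, ∀ᶠ t in (U : Filter ℕ), μ t j = a * μ t i

lemma Rl5.symm {U : Ultrafilter ℕ} {μ : ℕ → Fin 5 → ℚ} (hμ : ∀ t i, μ t i ≠ 0) {i j : Fin 5}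
    (h : Rl5 U μ i j) : Rl5 U μ j i := by
  obtain ⟨a, ha⟩ := h
  obtain ⟨t, ht⟩ := ha.exists
  have ha0 : a ≠ 0 := by
    rintro rfl
    rw [zero_mul] at ht
    exact hμ t j ht
  refine ⟨a⁻¹, ?_⟩
  filter_upwards [ha] with t ht
  rw [ht, ← mul_assoc, inv_mul_cancel₀ ha0, one_mul]

lemma Rl5.trans {U : Ultrafilter ℕ} {μ : ℕ → Fin 5 → ℚ} {i j k : Fin 5} (h : Rl5 U μ i j)
    (h' : Rl5 U μ j k) : Rl5 U μ i k := by
  obtain ⟨a, ha⟩ := h
  obtain ⟨b, hb⟩ := h'
  refine ⟨b * a, ?_⟩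
  filter_upwards [ha, hb] with t h1 h2
  rw [h2, h1, mul_assoc]

/-- every index of four has a partner -/
lemma partner (hue : UeStmt) {U : Ultrafilter ℕ} (g : Fin 5 → Fin 2 → ℚ)
    (hg : ∀ i j, i ≠ j → dt (g i) (g j) ≠ 0) (μ : ℕ → Fin 5 → ℚ) (hμ : ∀ t i, μ t i ≠ 0)
    (S : Finset ℕ) (hS : ∀ p ∈ S, p.Prime)
    (hμS : ∀ t i i' (p : ℕ), p.Prime → p ∉ S → padicValRat p (μ t i) = padicValRat p (μ t i'))
    (A B C : ℕ → ℂ) (hv : ∀ t i, vl (g i) (A t) (B t) (C t) = ((μ t i : ℚ) : ℂ))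
    (f : Fin 4 → Fin 5) (hf : Function.Injective f) (i : Fin 4) :
    ∃ j, j ≠ i ∧ Rl5 U μ (f i) (f j) := by
  classical
  have d : ∀ x y : Fin 4, x ≠ y → dt (g (f x)) (g (f y)) ≠ 0 := fun x y hxy =>
    hg _ _ fun h => hxy (hf h)
  have d01 := d 0 1 (by decide)
  have d02 := d 0 2 (by decide)
  have d03 := d 0 3 (by decide)
  have d12 := d 1 2 (by decide)
  have d13 := d 1 3 (by decide)
  have d23 := d 2 3 (by decide)
  obtain ⟨c, hc0, hc⟩ : ∃ c : Fin 4 → ℚ, (∀ k, c k ≠ 0) ∧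
      ∀ t, ∑ k, c k * μ t (f k) = 0 := by
    refine ⟨![dt (g (f 1)) (g (f 2)) * dt (g (f 1)) (g (f 3)) * dt (g (f 2)) (g (f 3)),
      -(dt (g (f 0)) (g (f 2)) * dt (g (f 0)) (g (f 3)) * dt (g (f 2)) (g (f 3))),
      dt (g (f 0)) (g (f 1)) * dt (g (f 0)) (g (f 3)) * dt (g (f 1)) (g (f 3)),
      -(dt (g (f 0)) (g (f 1)) * dt (g (f 0)) (g (f 2)) * dt (g (f 1)) (g (f 2)))], ?_, ?_⟩
    · intro k
      fin_cases k
      · exact mul_ne_zero (mul_ne_zero d12 d13) d23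
      · exact neg_ne_zero.2 (mul_ne_zero (mul_ne_zero d02 d03) d23)
      · exact mul_ne_zero (mul_ne_zero d01 d03) d13
      · exact neg_ne_zero.2 (mul_ne_zero (mul_ne_zero d01 d02) d12)
    · intro t
      have h1 := rel4 (g (f 0)) (g (f 1)) (g (f 2)) (g (f 3)) (A t) (B t) (C t)
      rw [hv, hv, hv, hv] at h1
      rw [Fin.sum_univ_four]
      simp only [Matrix.cons_val_zero, Matrix.cons_val_one, Matrix.cons_val]
      exact_mod_cast h1
  by_contra hcon
  push Not at hcon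
  have h1 := hue U S hS 4 (fun i t => μ t (f i)) (fun i t => hμ t _)
    (fun i j t p hp hpS => hμS t _ _ p hp hpS) c (Eventually.of_forall hc) i {i} (by
      intro j
      rw [Finset.mem_singleton]
      constructor
      · rintro rfl
        exact ⟨1, Eventually.of_forall fun t => by rw [one_mul]⟩
      · intro h
        by_contra hne
        exact hcon j hne h)
  obtain ⟨t, ht⟩ := h1.exists
  rw [Finset.sum_singleton] at ht
  exact mul_ne_zero (hc0 i) (hμ t _) ht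

theorem lin5 (hue : UeStmt) (hsymeq : SymeqStmt) : Lin5Stmt := by
  intro q H hq hH l hl hat U hU z hz hzl ν hν0 S hS hνS hν
  classical
  obtain ⟨j, hj⟩ : ∃ j, l j ≠ 0 := by
    by_contra hcon
    push Not at hcon
    exact hl (funext hcon)
  -- five points
  unfold At4 at hat
  push Not at hat
  obtain ⟨p, hp0, hpl, hpH, hpne⟩ := hat
  have hlin : ∀ x : Fin 3 → ℂ, aeval x (Pool.Agent.Y734.lin (n := 2) l) = ev (N := 2) l x := by
    intro x
    unfold Pool.Agent.Y734.lin ev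
    simp
  have hpl' : ∀ k, ev (N := 2) l (p k) = 0 := fun k => by rw [← hlin]; exact hpl k
  choose i hi using hpH
  let g : Fin 5 → Fin 2 → ℚ := fun k => rs l j (H (i k))
  have hg0 : ∀ k, g k ≠ 0 := by
    intro k hk
    have h1 := pr_vl hj (H (i k)) (hzl 0 0) (hzl 0 1)
    rw [hν] at h1
    have h2 : rs l j (H (i k)) = 0 := hk
    rw [h2] at h1
    unfold vl at h1
    simp only [Pi.zero_apply, Rat.cast_zero, zero_mul, add_zero] at h1
    exact hν0 0 (i k) (by exact_mod_cast h1)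
  have hg : ∀ k m, k ≠ m → dt (g k) (g m) ≠ 0 := by
    intro k m hkm hd
    have h1 : (g k 0 : ℂ) * p k (j + 1) + (g k 1 : ℂ) * p k (j + 2) = 0 := by
      rw [← rs_ev hj (H (i k)) (hpl' k)]
      exact hi k
    have h2 : (g m 0 : ℂ) * p m (j + 1) + (g m 1 : ℂ) * p m (j + 2) = 0 := by
      rw [← rs_ev hj (H (i m)) (hpl' m)]
      exact hi m
    obtain ⟨c, hc1, hc2⟩ := same_zero (hg0 k) (hg0 m) hd h1 h2 (coord_ne hj (hpl' m) (hp0 m))
    exact hpne k m hkm c (prop_of_coord hj (hpl' k) (hpl' m) hc1 hc2)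
  let μ : ℕ → Fin 5 → ℚ := fun t k => ν t (i k)
  have hv : ∀ t k, vl (g k) (sA j (z t 0) (z t 1)) (sB j (z t 0) (z t 1))
      (sC j (z t 0) (z t 1)) = ((μ t k : ℚ) : ℂ) := by
    intro t k
    rw [← hν t (i k)]
    exact (pr_vl hj (H (i k)) (hzl t 0) (hzl t 1)).symm
  have hall : ∀ k m, k ≠ m → Rl5 U μ k m := all_rel5 (Rl5 U μ)
    (fun k m h => h.symm fun t k => hν0 t _) (fun k m n h h' => h.trans h')
    (fun f hf i' => partner hue g hg μ (fun t k => hν0 t _) S hS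
      (fun t k k' p hp hpS => hνS t _ _ p hp hpS) _ _ _ hv f hf i')
  obtain ⟨a, ha⟩ := hall 0 1 (by decide)
  obtain ⟨b, hb⟩ := hall 0 2 (by decide)
  obtain ⟨s, hs1, hs2⟩ := (ha.and hb).exists
  obtain ⟨t, ⟨ht1, ht2⟩, hst⟩ := ((ha.and hb).and (hU (eventually_gt_atTop s))).exists
  have hs0 : μ s 0 ≠ 0 := hν0 s _
  have ht0 : μ t 0 ≠ 0 := hν0 t _
  set c : ℂ := ((μ t 0 / μ s 0 : ℚ) : ℂ) with hcdef
  have hc0 : c ≠ 0 := Rat.cast_ne_zero.2 (div_ne_zero ht0 hs0)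
  have hc : ∀ x : ℚ, ((x * μ t 0 : ℚ) : ℂ) = c * ((x * μ s 0 : ℚ) : ℂ) := by
    intro x
    rw [hcdef, ← Rat.cast_mul]
    congr 1
    field_simp
  have hz0 : ∀ k : Fin 5, ((μ t k : ℚ) : ℂ) = c * ((μ s k : ℚ) : ℂ) →
      vl (g k) (sA j (z t 0) (z t 1) - c * sA j (z s 0) (z s 1))
        (sB j (z t 0) (z t 1) - c * sB j (z s 0) (z s 1))
        (sC j (z t 0) (z t 1) - c * sC j (z s 0) (z s 1)) = 0 := by
    intro k hk
    rw [vl_sub, hv, hv, hk, sub_self]
  obtain ⟨h1, h2, h3⟩ := zero3 (g 0) (g 1) (g 2) (hg 0 1 (by decide)) (hg 0 2 (by decide))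
    (hg 1 2 (by decide)) _ _ _ (hz0 0 (by have := hc 1; rwa [one_mul, one_mul] at this))
    (hz0 1 (by rw [ht1, hs1]; exact hc a)) (hz0 2 (by rw [ht2, hs2]; exact hc b))
  have h4 := sym_all hj (hzl t 0) (hzl t 1) (hzl s 0) (hzl s 1) (sub_eq_zero.1 h1)
    (sub_eq_zero.1 h2) (sub_eq_zero.1 h3)
  rcases hsymeq (z t 0) (z t 1) (z s 0) (z s 1) c hc0 (hz t 0) (hz t 1) h4 with h | h
  · obtain ⟨b, hb⟩ := h
    exact ⟨s, t, hst, 0, b, hb⟩
  · obtain ⟨b, hb⟩ := h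
    exact ⟨s, t, hst, 1, b, hb⟩

end Pool.Agent.Y734.I.LIN5
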